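import Pool.Agent.W47.JL.Defs

/-!
Project JL, piece S_DESC: division by `X - b` for a family of sequences.
-/

set_option autoImplicit false

namespace Pool.Agent.W639.JL

open Finset Polynomial
open Pool.Agent.H831R3.LC

theorem descend_family (J : ℕ) (a : Fin J → ℕ → ℤ) (B b H M r : ℕ) (hb : 2 ≤ b)
    (ha : ∀ j i, |a j i| ≤ B) (hbig : (M + 1) * H * B < b ^ r) :
    ∀ (N : ℕ) (t : ℤ[X]), t.natDegree = N → N ≤ M → t ≠ 0 → (∀ j, |t.coeff j| ≤ H) →
      (∀ j, ∀ i < r, W t (a j) i = 0) →
      ∃ s : ℤ[X], s.natDegree ≤ M ∧ (∀ j, |s.coeff j| ≤ H) ∧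
        (∀ j, ∀ i < r, W s (a j) i = 0) ∧ s.eval (b : ℤ) ≠ 0 := by
  intro N
  induction N with
  | zero =>
    intro t hN hM ht hH hr
    refine ⟨t, by omega, hH, hr, ?_⟩
    rw [eq_C_of_natDegree_eq_zero hN, eval_C]
    intro h
    apply ht
    rw [eq_C_of_natDegree_eq_zero hN, h, C_0]
  | succ N ih =>
    intro t hN hM ht hH hr
    by_cases h0 : t.eval (b : ℤ) = 0
    · obtain ⟨g, hg⟩ := dvd_iff_isRoot.2 h0
      have hg0 : g ≠ 0 := by
        rintro rfl
        exact ht (by rw [hg, mul_zero])
      have hgd : g.natDegree = N := by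
        have := natDegree_mul (X_sub_C_ne_zero (b : ℤ)) hg0
        rw [← hg, natDegree_X_sub_C] at this
        omega
      have hbZ : (2 : ℤ) ≤ b := by exact_mod_cast hb
      have hgH : ∀ j, |g.coeff j| ≤ H := by
        intro j
        induction j with
        | zero =>
          have h1 := hH 0
          rw [hg, mul_coeff_zero, coeff_sub, coeff_X_zero, coeff_C_zero, zero_sub, abs_mul,
            abs_neg] at h1
          have h2 : |(b : ℤ)| = b := abs_of_nonneg (by omega)
          rw [h2] at h1
          nlinarith [abs_nonneg (g.coeff 0)]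
        | succ j ihj =>
          have h1 := hH (j + 1)
          rw [hg, coeff_X_sub_C_mul] at h1
          have h3 : |(b : ℤ) * g.coeff (j + 1)| ≤ 2 * H := by
            calc |(b : ℤ) * g.coeff (j + 1)| =
                  |g.coeff j - (g.coeff j - (b : ℤ) * g.coeff (j + 1))| := by ring_nf
              _ ≤ |g.coeff j| + |g.coeff j - (b : ℤ) * g.coeff (j + 1)| := abs_sub _ _
              _ ≤ 2 * H := by linarith
          rw [abs_mul, abs_of_nonneg (by omega : (0 : ℤ) ≤ b)] at h3
          nlinarith [abs_nonneg (g.coeff (j + 1))]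
      -- the values of `g`
      have hzero : ∀ j, ∀ i < r, W g (a j) i = 0 := by
        intro j
        have hstep : ∀ i < r, W g (a j) (i + 1) = b * W g (a j) i := by
          intro i hi
          have h1 := hr j i hi
          rw [hg, W_mul, W_sub] at h1
          linarith
        have hpow : ∀ i ≤ r, W g (a j) i = (b : ℤ) ^ i * W g (a j) 0 := by
          intro i
          induction i with
          | zero => intro _; simp
          | succ i ihi =>
            intro hi
            rw [hstep i (by omega), ihi (by omega)]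
            ring
        have hz : W g (a j) 0 = 0 := by
          by_contra hne
          have h1 : 1 ≤ |W g (a j) 0| := Int.one_le_abs hne
          have h2 := W_abs g (a j) B H (N + 1) (ha j) hgH (by omega) r
          rw [hpow r le_rfl, abs_mul, abs_pow, abs_of_nonneg (by omega : (0 : ℤ) ≤ b)] at h2
          have h3 : (((N + 1 : ℕ) : ℤ)) * H * B ≤ ((M + 1) * H * B : ℕ) := by
            push_cast
            have : ((N : ℤ) + 1) ≤ (M : ℤ) + 1 := by
              have : (N : ℤ) ≤ M := by exact_mod_cast (by omega : N ≤ M)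
              linarith
            gcongr
          have h4 : (((M + 1) * H * B : ℕ) : ℤ) < (b : ℤ) ^ r := by exact_mod_cast hbig
          have h5 : (b : ℤ) ^ r * 1 ≤ (b : ℤ) ^ r * |W g (a j) 0| :=
            mul_le_mul_of_nonneg_left h1 (by positivity)
          linarith
        intro i hi
        rw [hpow i hi.le, hz, mul_zero]
      exact ih g hgd (by omega) hg0 hgH hzero
    · exact ⟨t, by omega, hH, hr, h0⟩

theorem desc : Pool.Agent.W47.JL.S_DESC := by
  intro J a B b H M r hb ha hbig t hM ht hH hr
  exact descend_family J a B b H M r hb ha hbig t.natDegree t rfl hM ht hH hr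

end Pool.Agent.W639.JL
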